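import Mathlib

namespace Pool.Agent.Results.MP_a9f5dc_al.Quotient

/-- The generator `a` on words over `{0, 1}` (`false = 0`, `true = 1`). -/
def fa : List Bool → List Bool
  | [] => []
  | x :: w => (!x) :: w

mutual
/-- The generator `b`. -/
def fb : List Bool → List Bool
  | [] => []
  | false :: w => false :: fa w
  | true :: w => true :: fc w
/-- The generator `c`. -/
def fc : List Bool → List Bool
  | [] => []
  | false :: w => false :: fa w
  | true :: w => true :: fd w
/-- The generator `d`. -/
def fd : List Bool → List Bool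
  | [] => []
  | false :: w => false :: w
  | true :: w => true :: fb w
end

theorem fa_inv : Function.Involutive fa := by
  rintro (_ | ⟨x, w⟩) <;> simp [fa]

theorem all_inv (w : List Bool) : fb (fb w) = w ∧ fc (fc w) = w ∧ fd (fd w) = w := by
  induction w with
  | nil => simp [fb, fc, fd]
  | cons x w ih => cases x <;> simp [fb, fc, fd, fa_inv w, ih]

/-- The four generators as permutations of the vertex set of the tree. -/
def a : Equiv.Perm (List Bool) := fa_inv.toPerm
def b : Equiv.Perm (List Bool) := Function.Involutive.toPerm fb fun w => (all_inv w).1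
def c : Equiv.Perm (List Bool) := Function.Involutive.toPerm fc fun w => (all_inv w).2.1
def d : Equiv.Perm (List Bool) := Function.Involutive.toPerm fd fun w => (all_inv w).2.2

/-- The Grigorchuk group. -/
def Grig : Subgroup (Equiv.Perm (List Bool)) := Subgroup.closure {a, b, c, d}

open FreeGroup in
/-- The relator `[x₁, y₁][x₂, y₂]` with `x₁, y₁, x₂, y₂` numbered `0, 1, 2, 3`. -/
def rel : FreeGroup (Fin 4) :=
  (of 0 * of 1 * (of 0)⁻¹ * (of 1)⁻¹) * (of 2 * of 3 * (of 2)⁻¹ * (of 3)⁻¹)

/-- The genus two surface group. -/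
abbrev S2 : Type := PresentedGroup ({rel} : Set (FreeGroup (Fin 4)))

theorem klein (w : List Bool) : (fb (fc w) = fd w ∧ fc (fd w) = fb w ∧ fd (fb w) = fc w) ∧
    fc (fb w) = fd w ∧ fd (fc w) = fb w ∧ fb (fd w) = fc w := by
  induction w with
  | nil => simp [fb, fc, fd]
  | cons x w ih => cases x <;> simp [fb, fc, fd, fa_inv w, ih]

theorem bc : b * c = d := Equiv.ext fun w => (klein w).1.1
theorem cb : c * b = d := Equiv.ext fun w => (klein w).2.1

theorem result : ∃ f : S2 →* Grig, Function.Surjective f := by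
  have ha : a ∈ Grig := Subgroup.subset_closure (by simp)
  have hb : b ∈ Grig := Subgroup.subset_closure (by simp)
  have hc : c ∈ Grig := Subgroup.subset_closure (by simp)
  let g : Fin 4 → Grig := ![⟨b, hb⟩, ⟨c, hc⟩, ⟨a, ha⟩, 1]
  have hr : ∀ r ∈ ({rel} : Set (FreeGroup (Fin 4))), FreeGroup.lift g r = 1 := by
    rintro r rfl
    have : (⟨b, hb⟩ : Grig) * ⟨c, hc⟩ = ⟨c, hc⟩ * ⟨b, hb⟩ := Subtype.ext (bc.trans cb.symm)
    have e : FreeGroup.lift g rel = (g 0 * g 1 * (g 0)⁻¹ * (g 1)⁻¹) * (g 2 * g 3 * (g 2)⁻¹ * (g 3)⁻¹) := by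
      simp only [rel, map_mul, map_inv, FreeGroup.lift_apply_of]
    have e1 : g 0 * g 1 = g 1 * g 0 := this
    have e3 : g 3 = 1 := rfl
    rw [e, e1, e3]
    group
  refine ⟨PresentedGroup.toGroup hr, ?_⟩
  rintro ⟨x, hx⟩
  have key : ∀ i, g i ∈ (PresentedGroup.toGroup hr).range := fun i =>
    ⟨PresentedGroup.of i, by simp⟩
  show (⟨x, hx⟩ : Grig) ∈ (PresentedGroup.toGroup hr).range
  induction hx using Subgroup.closure_induction with
  | mem x hx =>
    rcases hx with rfl | rfl | rfl | rfl
    · exact key 2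
    · exact key 0
    · exact key 1
    · have := Subgroup.mul_mem _ (key 0) (key 1)
      convert this using 1
      exact Subtype.ext bc.symm
  | one => exact Subgroup.one_mem _
  | mul x y hx hy h1 h2 => exact Subgroup.mul_mem _ h1 h2
  | inv x hx h1 => exact Subgroup.inv_mem _ h1

end Pool.Agent.Results.MP_a9f5dc_al.Quotient
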